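import Mathlib

set_option autoImplicit false

namespace Pool.Agent.Helper6.T5

open Finset

/-- The residue modulo `p₁ p₂` which is `x` modulo `p₁` and `x ^ 2` modulo `p₂`. -/
noncomputable def quad (p₁ p₂ : ℕ) (h : p₁.Coprime p₂) (x : ℕ) : ZMod (p₁ * p₂) :=
  (ZMod.chineseRemainder h).symm ((x : ZMod p₁), (x : ZMod p₂) ^ 2)

theorem quad_inj {p₁ p₂ : ℕ} (h : p₁.Coprime p₂) {x y : ℕ} (hx : x < p₁) (hy : y < p₁)
    (he : quad p₁ p₂ h x = quad p₁ p₂ h y) : x = y := by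
  unfold quad at he
  have := (ZMod.chineseRemainder h).symm.injective he
  have h1 : (x : ZMod p₁) = (y : ZMod p₁) := congrArg Prod.fst this
  rw [ZMod.natCast_eq_natCast_iff'] at h1
  rwa [Nat.mod_eq_of_lt hx, Nat.mod_eq_of_lt hy] at h1

/-- For one value of the integer sum there are at most two pairs. -/
theorem two_of_sum {p₂ P : ℕ} [Fact p₂.Prime] (hodd : p₂ ≠ 2) (hP : P ≤ p₂) (s : ℕ)
    (c : ZMod p₂) :
    (((range P) ×ˢ (range P)).filter (fun x : ℕ × ℕ => x.1 + x.2 = s ∧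
      (x.1 : ZMod p₂) ^ 2 + (x.2 : ZMod p₂) ^ 2 = c)).card ≤ 2 := by
  classical
  by_contra hcon
  push_neg at hcon
  obtain ⟨a, b, d, ha, hb, hd, hab, had, hbd⟩ := Finset.two_lt_card_iff.mp hcon
  simp only [mem_filter, mem_product, mem_range] at ha hb hd
  have h2 : (2 : ZMod p₂) ≠ 0 := by
    intro h
    have : ((2 : ℕ) : ZMod p₂) = 0 := by exact_mod_cast h
    rw [ZMod.natCast_eq_zero_iff] at this
    have h3 := (Nat.prime_dvd_prime_iff_eq (Fact.out) Nat.prime_two).mp this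
    exact hodd h3
  -- the first coordinates satisfy the same quadratic equation
  have key : ∀ x : ℕ × ℕ, x.1 + x.2 = s → (x.1 : ZMod p₂) ^ 2 + (x.2 : ZMod p₂) ^ 2 = c →
      (2 * (x.1 : ZMod p₂) - s) ^ 2 = 2 * c - (s : ZMod p₂) ^ 2 := by
    intro x h1 h3
    have h4 : (x.2 : ZMod p₂) = s - x.1 := by
      rw [← h1]; push_cast; ring
    rw [h4] at h3
    rw [← h3]; ring
  have ka := key a ha.2.1 ha.2.2
  have kb := key b hb.2.1 hb.2.2
  have kd := key d hd.2.1 hd.2.2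
  have inj : ∀ x y : ℕ × ℕ, x.1 < P → y.1 < P → x.1 + x.2 = s → y.1 + y.2 = s →
      2 * (x.1 : ZMod p₂) - s = 2 * (y.1 : ZMod p₂) - s → x = y := by
    intro x y hx hy h1 h3 h4
    have h5 : (2 : ZMod p₂) * ((x.1 : ZMod p₂) - y.1) = 0 := by linear_combination h4
    have h6 : (x.1 : ZMod p₂) = y.1 := by
      rcases mul_eq_zero.mp h5 with h | h
      · exact absurd h h2
      · exact sub_eq_zero.mp h
    rw [ZMod.natCast_eq_natCast_iff', Nat.mod_eq_of_lt (by omega), Nat.mod_eq_of_lt (by omega)]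
      at h6
    ext
    · exact h6
    · omega
  have hab' : 2 * (a.1 : ZMod p₂) - s = -(2 * (b.1 : ZMod p₂) - s) := by
    rcases sq_eq_sq_iff_eq_or_eq_neg.mp (ka.trans kb.symm) with h | h
    · exact absurd (inj a b ha.1.1 hb.1.1 ha.2.1 hb.2.1 h) hab
    · exact h
  have had' : 2 * (a.1 : ZMod p₂) - s = -(2 * (d.1 : ZMod p₂) - s) := by
    rcases sq_eq_sq_iff_eq_or_eq_neg.mp (ka.trans kd.symm) with h | h
    · exact absurd (inj a d ha.1.1 hd.1.1 ha.2.1 hd.2.1 h) had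
    · exact h
  exact hbd (inj b d hb.1.1 hd.1.1 hb.2.1 hd.2.1 (by linear_combination hab' - had'))

/-- At most four ordered pairs have a given sum. -/
theorem quad_reps {p₁ p₂ P : ℕ} (h : p₁.Coprime p₂) [Fact p₂.Prime] (hodd : p₂ ≠ 2)
    (hP₁ : P ≤ p₁) (hP₂ : P ≤ p₂) (t : ZMod (p₁ * p₂)) :
    (((range P) ×ˢ (range P)).filter (fun x : ℕ × ℕ =>
      quad p₁ p₂ h x.1 + quad p₁ p₂ h x.2 = t)).card ≤ 4 := by
  classical
  set u := (ZMod.chineseRemainder h) t with hu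
  rcases Nat.eq_zero_or_pos P with rfl | hPpos
  · simp
  have hp₁ : 0 < p₁ := lt_of_lt_of_le hPpos hP₁
  have : NeZero p₁ := ⟨hp₁.ne'⟩
  set s₀ := (u.1).val with hs₀
  have hsub : ((range P) ×ˢ (range P)).filter (fun x : ℕ × ℕ =>
      quad p₁ p₂ h x.1 + quad p₁ p₂ h x.2 = t) ⊆
      (((range P) ×ˢ (range P)).filter (fun x : ℕ × ℕ => x.1 + x.2 = s₀ ∧
        (x.1 : ZMod p₂) ^ 2 + (x.2 : ZMod p₂) ^ 2 = u.2)) ∪
      (((range P) ×ˢ (range P)).filter (fun x : ℕ × ℕ => x.1 + x.2 = s₀ + p₁ ∧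
        (x.1 : ZMod p₂) ^ 2 + (x.2 : ZMod p₂) ^ 2 = u.2)) := by
    intro x hx
    simp only [mem_filter, mem_product, mem_range, mem_union] at hx ⊢
    obtain ⟨⟨hx1, hx2⟩, hx3⟩ := hx
    have h1 : (ZMod.chineseRemainder h) (quad p₁ p₂ h x.1 + quad p₁ p₂ h x.2) = u := by
      rw [hx3]
    unfold quad at h1
    rw [map_add, RingEquiv.apply_symm_apply, RingEquiv.apply_symm_apply] at h1
    have h2 : ((x.1 : ZMod p₁) + (x.2 : ZMod p₁)) = u.1 := congrArg Prod.fst h1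
    have h3 : (x.1 : ZMod p₂) ^ 2 + (x.2 : ZMod p₂) ^ 2 = u.2 := congrArg Prod.snd h1
    have h4 : (x.1 + x.2) % p₁ = s₀ := by
      rw [hs₀, ← h2, ← Nat.cast_add, ZMod.val_natCast]
    have h5 := Nat.div_add_mod (x.1 + x.2) p₁
    have h6 : (x.1 + x.2) / p₁ < 2 := by
      rw [Nat.div_lt_iff_lt_mul hp₁]; omega
    interval_cases hq : (x.1 + x.2) / p₁
    · left
      refine ⟨⟨hx1, hx2⟩, ?_, h3⟩
      omega
    · right
      refine ⟨⟨hx1, hx2⟩, ?_, h3⟩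
      omega
  calc _ ≤ _ := card_le_card hsub
    _ ≤ _ := card_union_le _ _
    _ ≤ 2 + 2 := Nat.add_le_add (two_of_sum hodd hP₂ _ _) (two_of_sum hodd hP₂ _ _)
    _ = 4 := rfl

/-- Pairs of primes of a given size, larger than a given bound and pairwise different: for every
`P ≥ 1` and every `m` there are `2 m` primes `p i 0 < p i 1` in `(P, 4 ^ m P]`. -/
theorem exists_primes (P m : ℕ) (hP : 0 < P) :
    ∃ p : ℕ → ℕ, (∀ i < m, (p i).Prime ∧ P * 2 ^ i < p i ∧ p i ≤ P * 2 ^ (i + 1)) ∧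
      ∀ i < m, ∀ j < m, i ≠ j → p i ≠ p j := by
  have h : ∀ i, ∃ q : ℕ, q.Prime ∧ P * 2 ^ i < q ∧ q ≤ P * 2 ^ (i + 1) := by
    intro i
    obtain ⟨q, hq, h1, h2⟩ := Nat.exists_prime_lt_and_le_two_mul (P * 2 ^ i) (by positivity)
    refine ⟨q, hq, h1, ?_⟩
    rw [pow_succ]; linarith
  choose p hp using h
  refine ⟨p, fun i _ => hp i, ?_⟩
  have hmono : ∀ i j, i < j → p i < p j := by
    intro i j hij
    have h1 := (hp i).2.2
    have h2 := (hp j).2.1
    have h3 : P * 2 ^ (i + 1) ≤ P * 2 ^ j := Nat.mul_le_mul_left _ (Nat.pow_le_pow_right (by norm_num) hij)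
    omega
  intro i _ j _ hij he
  rcases lt_or_gt_of_ne hij with h | h
  · exact absurd he (hmono i j h).ne
  · exact absurd he (hmono j i h).ne'

end Pool.Agent.Helper6.T5
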